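import Pool.Agent.H283.HT.Stm

/-!
# HT-SUP: supremum of the good arcs
-/

set_option autoImplicit false

namespace Pool.Agent.H632.HTSUP

open Pool.Agent.H283.HT

theorem good_mono {K : Set P3} {q : ℝ → P2} {a b a' b' : ℝ} (h : Good K q a b) (ha : a ≤ a')
    (hb : b' ≤ b) : Good K q a' b' := by
  obtain ⟨d, hd⟩ := h
  exact ⟨d, fun θ h1 h2 x hx hq => hd θ (ha.trans h1) (h2.trans hb) x hx hq⟩

theorem SUP_done (hOPEN : S_OPEN) (hFIB : S_FIB) : S_SUP := by
  intro K q hK hD hP hL a e hae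
  by_cases hall : ∀ t : ℝ, a ≤ t → t < e → Good K q a t
  · exact Or.inl hall
  · right
    push Not at hall
    obtain ⟨t₀, ht1, ht2, ht3⟩ := hall
    set S : Set ℝ := {t | a ≤ t ∧ t < e ∧ Good K q a t} with hS
    have haS : a ∈ S := ⟨le_rfl, hae, hFIB K q hK hD hP hL a⟩
    have hub : ∀ t ∈ S, t ≤ t₀ := by
      intro t ht
      by_contra hlt
      push Not at hlt
      exact ht3 (good_mono ht.2.2 le_rfl hlt.le)
    have hbdd : BddAbove S := ⟨t₀, hub⟩
    have hb0 : sSup S ≤ t₀ := csSup_le ⟨a, haS⟩ hub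
    have hstep : ∀ t : ℝ, a ≤ t → t < e → Good K q a t → t < sSup S := by
      intro t h1 h2 h3
      obtain ⟨ε, hε, hg⟩ := hOPEN K q hK hP a t h1 h3
      have hδ : 0 < min ε ((e - t) / 2) := lt_min hε (by linarith)
      have hmem : t + min ε ((e - t) / 2) ∈ S := by
        refine ⟨by linarith, ?_, good_mono hg (by linarith) ?_⟩
        · have := min_le_right ε ((e - t) / 2)
          linarith
        · have := min_le_left ε ((e - t) / 2)
          linarith
      have := le_csSup hbdd hmem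
      linarith
    have hab : a < sSup S := hstep a le_rfl hae haS.2.2
    refine ⟨sSup S, hab, lt_of_le_of_lt hb0 ht2, fun t h1 h2 => ?_, fun hg => ?_⟩
    · obtain ⟨s, hs, hts⟩ := exists_lt_of_lt_csSup ⟨a, haS⟩ h2
      exact good_mono hs.2.2 le_rfl hts.le
    · exact lt_irrefl _ (hstep _ hab.le (lt_of_le_of_lt hb0 ht2) hg)

end Pool.Agent.H632.HTSUP
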